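import Mathlib

/-!
# The cubic form `∑ x i ^ 3`
-/

set_option autoImplicit false

open Real Set MeasureTheory
open scoped RealInnerProductSpace

namespace Pool.Agent.K7.H35.Z

variable {N : ℕ}

/-- Euclidean space -/
abbrev E (N : ℕ) := EuclideanSpace ℝ (Fin N)

/-- the cubic form -/
def cub (x : E N) : ℝ := ∑ i, x i ^ 3

/-- its gradient -/
noncomputable def gcub (x : E N) : E N := WithLp.toLp 2 fun i => 3 * x i ^ 2

theorem norm_sq (x : E N) : ‖x‖ ^ 2 = ∑ i, x i ^ 2 := by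
  rw [EuclideanSpace.norm_sq_eq]
  simp [Real.norm_eq_abs, sq_abs]

theorem inner_eq (x y : E N) : ⟪x, y⟫ = ∑ i, x i * y i := by
  rw [PiLp.inner_apply]
  refine Finset.sum_congr rfl fun i _ => ?_
  simp [mul_comm]

theorem abs_coord (x : E N) (i : Fin N) : |x i| ≤ ‖x‖ := by
  have := PiLp.norm_apply_le x i
  rwa [Real.norm_eq_abs] at this

theorem abs_cub (x : E N) : |cub x| ≤ ‖x‖ ^ 3 := by
  unfold cub
  calc |∑ i, x i ^ 3| ≤ ∑ i, |x i ^ 3| := Finset.abs_sum_le_sum_abs _ _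
    _ ≤ ∑ i, ‖x‖ * x i ^ 2 := by
        refine Finset.sum_le_sum fun i _ => ?_
        rw [abs_pow, pow_succ, sq_abs, mul_comm]
        exact mul_le_mul_of_nonneg_right (abs_coord x i) (sq_nonneg _)
    _ = ‖x‖ ^ 3 := by
        rw [← Finset.mul_sum, ← norm_sq]
        ring

theorem cub_neg (x : E N) : cub (-x) = -cub x := by
  simp only [cub, PiLp.neg_apply, ← Finset.sum_neg_distrib]
  refine Finset.sum_congr rfl fun i _ => ?_
  ring

/-- the euclidean norm is at most the sum of the absolute values -/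
theorem norm_le_sum (x : E N) : ‖x‖ ≤ ∑ i, |x i| := by
  have h0 : 0 ≤ ∑ i, |x i| := Finset.sum_nonneg fun i _ => abs_nonneg _
  refine le_of_sq_le_sq ?_ h0
  rw [norm_sq]
  calc ∑ i, x i ^ 2 = ∑ i, |x i| * |x i| := by
        refine Finset.sum_congr rfl fun i _ => ?_
        rw [← sq, sq_abs]
    _ ≤ ∑ i, |x i| * ∑ j, |x j| := by
        refine Finset.sum_le_sum fun i _ => ?_
        refine mul_le_mul_of_nonneg_left ?_ (abs_nonneg _)
        exact Finset.single_le_sum (f := fun j => |x j|) (fun j _ => abs_nonneg _)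
          (Finset.mem_univ i)
    _ = (∑ i, |x i|) ^ 2 := by rw [← Finset.sum_mul, sq]

theorem norm_gcub (x : E N) : ‖gcub x‖ ≤ 3 * ‖x‖ ^ 2 := by
  refine (norm_le_sum _).trans ?_
  rw [norm_sq, Finset.mul_sum]
  refine Finset.sum_le_sum fun i _ => ?_
  simp only [gcub]
  rw [abs_of_nonneg (by positivity)]

theorem cub_sub_le {x y : E N} {R : ℝ} (hx : ‖x‖ ≤ R) (hy : ‖y‖ ≤ R) :
    |cub x - cub y| ≤ 3 * R ^ 2 * ‖x - y‖ := by
  have hR : 0 ≤ R := (norm_nonneg _).trans hx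
  let q : E N := WithLp.toLp 2 fun i => x i ^ 2 + x i * y i + y i ^ 2
  have h1 : cub x - cub y = ⟪x - y, q⟫ := by
    rw [inner_eq]
    simp only [cub, q, PiLp.sub_apply, ← Finset.sum_sub_distrib]
    refine Finset.sum_congr rfl fun i _ => ?_
    ring
  have h2 : ‖q‖ ≤ 3 * R ^ 2 := by
    refine (norm_le_sum _).trans ?_
    have h3 : ∀ i, |q i| ≤ 3 / 2 * x i ^ 2 + 3 / 2 * y i ^ 2 := by
      intro i
      simp only [q]
      rw [abs_of_nonneg (by nlinarith [sq_nonneg (x i + y i), sq_nonneg (x i), sq_nonneg (y i)])]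
      nlinarith [sq_nonneg (x i - y i)]
    refine (Finset.sum_le_sum fun i _ => h3 i).trans ?_
    rw [Finset.sum_add_distrib, ← Finset.mul_sum, ← Finset.mul_sum, ← norm_sq, ← norm_sq]
    have h4 : ‖x‖ ^ 2 ≤ R ^ 2 := pow_le_pow_left₀ (norm_nonneg _) hx 2
    have h5 : ‖y‖ ^ 2 ≤ R ^ 2 := pow_le_pow_left₀ (norm_nonneg _) hy 2
    linarith
  rw [h1]
  refine (abs_real_inner_le_norm _ _).trans ?_
  rw [mul_comm]
  exact mul_le_mul_of_nonneg_right h2 (norm_nonneg _)

theorem hasFDerivAt_coord (i : Fin N) (x : E N) :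
    HasFDerivAt (fun y : E N => y i) (EuclideanSpace.proj i : E N →L[ℝ] ℝ) x :=
  (EuclideanSpace.proj i : E N →L[ℝ] ℝ).hasFDerivAt

theorem contDiff_cub {n : WithTop ℕ∞} : ContDiff ℝ n (cub : E N → ℝ) := by
  unfold cub
  refine ContDiff.sum fun i _ => ContDiff.pow ?_ 3
  exact (EuclideanSpace.proj i : E N →L[ℝ] ℝ).contDiff

theorem hasGradientAt_cub (x : E N) : HasGradientAt cub (gcub x) x := by
  rw [hasGradientAt_iff_hasFDerivAt]
  have h1 : HasFDerivAt (fun y : E N => ∑ i, y i ^ 3)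
      (∑ i, (3 * x i ^ 2) • (EuclideanSpace.proj i : E N →L[ℝ] ℝ)) x := by
    refine HasFDerivAt.fun_sum fun i _ => ?_
    have := (hasFDerivAt_coord i x).pow 3
    simpa using this
  refine h1.congr_fderiv ?_
  ext y
  simp only [InnerProductSpace.toDual_apply_apply, inner_eq, gcub]
  simp

end Pool.Agent.K7.H35.Z
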