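import Pool.Agent.K7.H35.Z.Cub

/-!
# Geodesics of conformal metrics on the sphere
-/

set_option autoImplicit false

open Real Set MeasureTheory
open scoped RealInnerProductSpace ContDiff

namespace Pool.Agent.K7.H35.Z

variable {N : ℕ}

/-- `γ` is a unit speed geodesic of the Riemannian metric `ρ ^ 2` times the round metric on the
unit sphere of `E N`: the Euler-Lagrange equation of the energy says that `(ρ ^ 2 γ')'` and
`ρ |γ'| ^ 2 ∇ ρ` only differ by a vector normal to the sphere. -/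
def IsGeodesic (ρ : E N → ℝ) (γ : ℝ → E N) : Prop :=
  ContDiff ℝ ∞ γ ∧ (∀ s, ‖γ s‖ = 1) ∧ (∀ s, ρ (γ s) * ‖deriv γ s‖ = 1) ∧
    ∀ s, ∃ a : ℝ, deriv (fun r => ρ (γ r) ^ 2 • deriv γ r) s =
      (ρ (γ s) * ‖deriv γ s‖ ^ 2) • gradient ρ (γ s) + a • γ s

/-- the conformal factor -/
noncomputable def rho (t : ℝ) (x : E N) : ℝ := 1 + t * cub x

theorem hasGradientAt_rho (t : ℝ) (x : E N) : HasGradientAt (rho t) (t • gcub x) x := by
  have h := hasGradientAt_cub x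
  rw [hasGradientAt_iff_hasFDerivAt] at h ⊢
  have h2 := (h.const_mul t).const_add 1
  refine h2.congr_fderiv ?_
  simp [map_smul]

theorem contDiff_rho {n : WithTop ℕ∞} (t : ℝ) : ContDiff ℝ n (rho t : E N → ℝ) :=
  contDiff_const.add (contDiff_const.mul contDiff_cub)

theorem rho_bounds {t : ℝ} (ht : 0 < t) {x : E N} (hx : ‖x‖ = 1) :
    1 - t ≤ rho t x ∧ rho t x ≤ 1 + t := by
  have h := abs_cub x
  rw [hx, one_pow, abs_le] at h
  unfold rho
  constructor <;> nlinarith [h.1, h.2]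

theorem hasDerivAt_gamma {γ : ℝ → E N} (h : ContDiff ℝ ∞ γ) (s : ℝ) :
    HasDerivAt γ (deriv γ s) s :=
  (h.differentiable (by simp)).differentiableAt.hasDerivAt

theorem hasDerivAt_gamma' {γ : ℝ → E N} (h : ContDiff ℝ ∞ γ) (s : ℝ) :
    HasDerivAt (deriv γ) (deriv (deriv γ) s) s := by
  have h2 : ContDiff ℝ ∞ (deriv γ) := h.iterate_deriv 1
  exact (h2.differentiable (by simp)).differentiableAt.hasDerivAt

theorem inner_gamma_deriv {γ : ℝ → E N} (h : ContDiff ℝ ∞ γ) (h1 : ∀ s, ‖γ s‖ = 1) (s : ℝ) :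
    ⟪γ s, deriv γ s⟫ = 0 := by
  have h2 := (hasDerivAt_gamma h s).inner ℝ (hasDerivAt_gamma h s)
  have h3 : (fun r => ⟪γ r, γ r⟫) = fun _ => (1 : ℝ) := by
    funext r
    rw [real_inner_self_eq_norm_sq, h1]
    norm_num
  rw [h3] at h2
  have h4 := h2.unique (hasDerivAt_const s (1 : ℝ))
  rw [real_inner_comm (γ s) (deriv γ s)] at h4
  linarith

theorem inner_gamma_deriv2 {γ : ℝ → E N} (h : ContDiff ℝ ∞ γ) (h1 : ∀ s, ‖γ s‖ = 1) (s : ℝ) :
    ⟪γ s, deriv (deriv γ) s⟫ = -‖deriv γ s‖ ^ 2 := by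
  have h2 := (hasDerivAt_gamma h s).inner ℝ (hasDerivAt_gamma' h s)
  have h3 : (fun r => ⟪γ r, deriv γ r⟫) = fun _ => (0 : ℝ) := by
    funext r
    exact inner_gamma_deriv h h1 r
  rw [h3] at h2
  have h4 := h2.unique (hasDerivAt_const s (0 : ℝ))
  rw [real_inner_self_eq_norm_sq] at h4
  linarith

theorem ode {t : ℝ} (ht : 0 < t) (ht2 : t ≤ 1 / 2) {γ : ℝ → E N} (hγ : IsGeodesic (rho t) γ)
    (s : ℝ) : ‖deriv (deriv γ) s + γ s‖ ≤ 84 * t := by
  obtain ⟨hs, h1, h2, h3⟩ := hγ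
  obtain ⟨a, ha⟩ := h3 s
  set r := rho t (γ s) with hr
  set v := deriv γ s with hv
  set w := deriv (deriv γ) s with hw
  set x := γ s with hx
  have hxn : ‖x‖ = 1 := h1 s
  have hrv : r * ‖v‖ = 1 := h2 s
  obtain ⟨hr1, hr2⟩ := rho_bounds ht hxn
  rw [← hr] at hr1 hr2
  have hr0 : 0 < r := by linarith
  obtain ⟨g, hg⟩ : ∃ g : E N, g = t • gcub x := ⟨_, rfl⟩
  have hgn : ‖g‖ ≤ 3 * t := by
    rw [hg, norm_smul, Real.norm_of_nonneg ht.le]
    have := norm_gcub x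
    rw [hxn] at this
    nlinarith
  have hgr : gradient (rho t) x = g := by
    rw [hg]
    exact (hasGradientAt_rho t x).gradient
  have hrd : HasDerivAt (fun y => rho t (γ y)) ⟪g, v⟫ s := by
    have h4 := (hasGradientAt_rho t x).hasFDerivAt.comp_hasDerivAt s (hasDerivAt_gamma hs s)
    have h5 : HasDerivAt (fun y => rho t (γ y)) _ s := h4
    refine h5.congr_deriv ?_
    rw [InnerProductSpace.toDual_apply_apply, hg]
  have hd : HasDerivAt (fun y => rho t (γ y) ^ 2 • deriv γ y)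
      (r ^ 2 • w + (2 * r * ⟪g, v⟫) • v) s := by
    have h5 := (hrd.fun_pow 2).fun_smul (hasDerivAt_gamma' hs s)
    refine h5.congr_deriv ?_
    simp only [Nat.cast_ofNat, Nat.add_one_sub_one, pow_one]
    rfl
  rw [hd.deriv, hgr] at ha
  have hvn : ‖v‖ = r⁻¹ := by
    field_simp
    linarith
  have hxv : ⟪x, v⟫ = 0 := inner_gamma_deriv hs h1 s
  have hxw : ⟪x, w⟫ = -‖v‖ ^ 2 := inner_gamma_deriv2 hs h1 s
  -- the normal component
  have ha2 : a = -1 - r⁻¹ * ⟪x, g⟫ := by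
    have h6 := congrArg (fun z => ⟪x, z⟫) ha
    simp only [inner_add_right, inner_smul_right, hxv, hxw, real_inner_self_eq_norm_sq, hxn] at h6
    rw [hvn] at h6
    field_simp at h6 ⊢
    linarith
  have key : w + x = (r⁻¹ ^ 2) • ((r ^ 2 - 1) • x + r⁻¹ • (g - ⟪x, g⟫ • x)
      - (2 * r * ⟪g, v⟫) • v) := by
    have h7 : r ^ 2 • w = (r * ‖v‖ ^ 2) • g + a • x - (2 * r * ⟪g, v⟫) • v := by
      rw [← ha]
      abel
    have h8 : w = (r⁻¹ ^ 2) • (r ^ 2 • w) := by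
      rw [smul_smul]
      have : r⁻¹ ^ 2 * r ^ 2 = 1 := by field_simp
      rw [this, one_smul]
    have h9 : x = (r⁻¹ ^ 2) • (r ^ 2 • x) := by
      rw [smul_smul]
      have : r⁻¹ ^ 2 * r ^ 2 = 1 := by field_simp
      rw [this, one_smul]
    rw [h8, h7]
    nth_rewrite 2 [h9]
    rw [← smul_add]
    congr 1
    rw [ha2, hvn]
    have h10 : r * r⁻¹ ^ 2 = r⁻¹ := by field_simp
    rw [h10]
    module
  rw [key, norm_smul]
  have e1 : ‖(r ^ 2 - 1) • x‖ ≤ 3 * t := by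
    rw [norm_smul, hxn, mul_one, Real.norm_eq_abs, abs_le]
    constructor <;> nlinarith
  have hri : r⁻¹ ≤ 2 := by
    rw [inv_le_comm₀ hr0 (by norm_num)]
    linarith
  have hri0 : 0 < r⁻¹ := inv_pos.2 hr0
  have e2 : ‖r⁻¹ • (g - ⟪x, g⟫ • x)‖ ≤ 6 * t := by
    rw [norm_smul, Real.norm_of_nonneg hri0.le]
    have h11 : ‖g - ⟪x, g⟫ • x‖ ≤ 3 * t := by
      refine le_trans ?_ hgn
      refine le_of_sq_le_sq ?_ (norm_nonneg _)
      rw [@norm_sub_sq_real, norm_smul, hxn, mul_one, Real.norm_eq_abs, sq_abs, inner_smul_right,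
        real_inner_comm g x]
      nlinarith [sq_nonneg ⟪x, g⟫]
    nlinarith [norm_nonneg (g - ⟪x, g⟫ • x)]
  have e3 : ‖(2 * r * ⟪g, v⟫) • v‖ ≤ 12 * t := by
    rw [norm_smul, Real.norm_eq_abs, abs_mul, abs_mul, abs_of_pos hr0, abs_two]
    have h12 := abs_real_inner_le_norm g v
    have h13 : 2 * r * |⟪g, v⟫| * ‖v‖ = 2 * |⟪g, v⟫| := by
      have : 2 * r * |⟪g, v⟫| * ‖v‖ = 2 * |⟪g, v⟫| * (r * ‖v‖) := by ring
      rw [this, hrv, mul_one]
    rw [h13]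
    rw [hvn] at h12
    have h14 : ‖g‖ * r⁻¹ ≤ 3 * t * 2 := mul_le_mul hgn hri hri0.le (by linarith)
    linarith
  have e4 : ‖(r ^ 2 - 1) • x + r⁻¹ • (g - ⟪x, g⟫ • x) - (2 * r * ⟪g, v⟫) • v‖ ≤ 21 * t := by
    refine (norm_sub_le _ _).trans ?_
    have := norm_add_le ((r ^ 2 - 1) • x) (r⁻¹ • (g - ⟪x, g⟫ • x))
    linarith
  have e5 : ‖r⁻¹ ^ 2‖ ≤ 4 := by
    rw [Real.norm_of_nonneg (by positivity)]
    nlinarith
  nlinarith [norm_nonneg ((r ^ 2 - 1) • x + r⁻¹ • (g - ⟪x, g⟫ • x) - (2 * r * ⟪g, v⟫) • v)]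

end Pool.Agent.K7.H35.Z
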