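import Pool.Agent.K7.H35.Z.Geo

/-!
# The lengths of the periodic geodesics
-/

set_option autoImplicit false

open Real Set MeasureTheory
open scoped RealInnerProductSpace ContDiff

namespace Pool.Agent.K7.H35.Z

variable {N : ℕ}

theorem duhamel {γ : ℝ → E N} (h : ContDiff ℝ ∞ γ) {C : ℝ}
    (hC : ∀ s, ‖deriv (deriv γ) s + γ s‖ ≤ C) {S : ℝ} (hS : 0 ≤ S) :
    ‖γ S - (cos S • γ 0 + sin S • deriv γ 0)‖ ≤ C * S := by
  let F : ℝ → E N := fun s => sin (S - s) • deriv γ s + cos (S - s) • γ s
  have hF : ∀ s, HasDerivAt F (sin (S - s) • (deriv (deriv γ) s + γ s)) s := by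
    intro s
    have h1 : HasDerivAt (fun s => S - s) (-1) s := by
      simpa using (hasDerivAt_id s).const_sub S
    have h2 := (h1.sin).fun_smul (hasDerivAt_gamma' h s)
    have h3 := (h1.cos).fun_smul (hasDerivAt_gamma h s)
    refine (h2.add h3).congr_deriv ?_
    module
  have h4 := norm_image_sub_le_of_norm_deriv_le_segment' (a := 0) (b := S) (f := F) (C := C)
    (fun s _ => (hF s).hasDerivWithinAt) (fun s _ => by
      rw [norm_smul]
      have h5 : ‖sin (S - s)‖ ≤ 1 := by
        rw [Real.norm_eq_abs]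
        exact abs_sin_le_one _
      have h6 := hC s
      have h7 := norm_nonneg (deriv (deriv γ) s + γ s)
      nlinarith) S ⟨hS, le_rfl⟩
  simp only [F, sub_self, sin_zero, cos_zero, zero_smul, one_smul, zero_add, sub_zero] at h4
  rw [add_comm (sin S • deriv γ 0)] at h4
  exact h4

theorem speed_bounds {t : ℝ} (ht : 0 < t) (ht2 : t ≤ 1 / 10000) {γ : ℝ → E N}
    (hγ : IsGeodesic (rho t) γ) (s : ℝ) : 1 / 2 ≤ ‖deriv γ s‖ ∧ ‖deriv γ s‖ ≤ 2 := by
  obtain ⟨_, h1, h2, _⟩ := hγ
  obtain ⟨h3, h4⟩ := rho_bounds ht (h1 s)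
  have h5 := h2 s
  have h6 := norm_nonneg (deriv γ s)
  constructor
  · nlinarith
  · nlinarith

theorem period_ge {t : ℝ} (ht : 0 < t) (ht2 : t ≤ 1 / 10000) {γ : ℝ → E N}
    (hγ : IsGeodesic (rho t) γ) {T : ℝ} (hT : 0 < T) (hT2 : T ≤ 2 * π) (hper : γ T = γ 0) :
    2 * π - T ≤ 1680 * t := by
  have hode := fun s => ode ht (by linarith) hγ s
  obtain ⟨hb1, hb2⟩ := speed_bounds ht ht2 hγ 0
  obtain ⟨hs, h1, h2, h3⟩ := hγ
  have hd := duhamel hs hode hT.le
  rw [hper] at hd
  set a := γ 0 with ha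
  set b := deriv γ 0 with hb
  have han : ‖a‖ = 1 := h1 0
  have hab : ⟪a, b⟫ = 0 := inner_gamma_deriv hs h1 0
  have e1 : |1 - cos T| ≤ 84 * t * T := by
    have h4 := abs_real_inner_le_norm a (a - (cos T • a + sin T • b))
    rw [inner_sub_right, inner_add_right, inner_smul_right, inner_smul_right, hab,
      real_inner_self_eq_norm_sq, han] at h4
    simp only [one_pow, mul_one, mul_zero, add_zero, one_mul] at h4
    exact h4.trans hd
  have e2 : |sin T| * ‖b‖ ≤ 84 * t * T := by
    have h4 := abs_real_inner_le_norm b (a - (cos T • a + sin T • b))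
    rw [inner_sub_right, inner_add_right, inner_smul_right, inner_smul_right,
      real_inner_comm a b, hab, real_inner_self_eq_norm_sq] at h4
    simp only [mul_zero, zero_add, zero_sub, abs_neg, abs_mul, abs_pow, abs_norm] at h4
    have h5 : |sin T| * ‖b‖ ^ 2 ≤ ‖b‖ * (84 * t * T) :=
      h4.trans (mul_le_mul_of_nonneg_left hd (norm_nonneg _))
    have h6 : 0 < ‖b‖ := by linarith
    have h7 : ‖b‖ * (|sin T| * ‖b‖) ≤ ‖b‖ * (84 * t * T) := by
      calc ‖b‖ * (|sin T| * ‖b‖) = |sin T| * ‖b‖ ^ 2 := by ring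
        _ ≤ _ := h5
    exact le_of_mul_le_mul_left h7 h6
  have hpi := Real.pi_gt_three
  have hpi2 := Real.pi_lt_four
  have hpi3 : π < 3.15 := Real.pi_lt_d2
  rcases le_total T (π / 2) with hc | hc
  · exfalso
    have h4 := Real.mul_le_sin hT.le hc
    have h5 := le_abs_self (sin T)
    have h6 : 2 / π * T * (1 / 2) ≤ 84 * t * T := by
      refine le_trans ?_ e2
      exact mul_le_mul (h4.trans h5) hb1 (by norm_num) (abs_nonneg _)
    have h7 : 1 / π * T ≤ 84 * t * T := by
      calc 1 / π * T = 2 / π * T * (1 / 2) := by ring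
        _ ≤ _ := h6
    have h8 : 1 / π ≤ 84 * t := le_of_mul_le_mul_right h7 hT
    have h9 : 1 / 4 ≤ 1 / π := one_div_le_one_div_of_le Real.pi_pos hpi2.le
    linarith
  · rcases le_total T (3 * π / 2) with hc2 | hc2
    · exfalso
      have h4 : cos T ≤ 0 := Real.cos_nonpos_of_pi_div_two_le_of_le hc (by linarith)
      have h5 := le_abs_self (1 - cos T)
      nlinarith
    · have h4 : 0 ≤ 2 * π - T := by linarith
      have h5 : 2 * π - T ≤ π / 2 := by linarith
      have h6 := Real.mul_le_sin h4 h5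
      have h7 : sin (2 * π - T) = -sin T := by
        rw [Real.sin_two_pi_sub]
      rw [h7] at h6
      have h8 : -sin T ≤ |sin T| := neg_le_abs _
      have h9 : 2 / π * (2 * π - T) * (1 / 2) ≤ 84 * t * T := by
        refine le_trans ?_ e2
        exact mul_le_mul (h6.trans h8) hb1 (by norm_num) (abs_nonneg _)
      have h10 : (2 * π - T) ≤ π * (84 * t * T) := by
        calc (2 * π - T) = π * (2 / π * (2 * π - T) * (1 / 2)) := by
              field_simp
          _ ≤ _ := mul_le_mul_of_nonneg_left h9 Real.pi_pos.le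
      have h11 : π * (84 * t * T) ≤ 1680 * t := by
        have h12 : π * T ≤ 20 := by nlinarith
        nlinarith
      exact h10.trans h11

theorem integral_cub_circle (a b : E N) :
    ∫ θ in (0 : ℝ)..(2 * π), cub (cos θ • a + sin θ • b) = 0 := by
  have hcont : Continuous fun θ : ℝ => cub (cos θ • a + sin θ • b) := by
    refine (contDiff_cub (n := 0)).continuous.comp ?_
    fun_prop
  have h1 : ∫ θ in (π : ℝ)..(2 * π), cub (cos θ • a + sin θ • b) =
      ∫ θ in (0 : ℝ)..π, cub (cos (θ + π) • a + sin (θ + π) • b) := by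
    rw [intervalIntegral.integral_comp_add_right
      (fun θ : ℝ => cub (cos θ • a + sin θ • b)) π]
    congr 1
    · ring
    · ring
  have h2 : ∀ θ : ℝ, cub (cos (θ + π) • a + sin (θ + π) • b) = -cub (cos θ • a + sin θ • b) := by
    intro θ
    rw [← cub_neg, Real.cos_add_pi, Real.sin_add_pi]
    congr 1
    module
  rw [← intervalIntegral.integral_add_adjacent_intervals (hcont.intervalIntegrable 0 π)
    (hcont.intervalIntegrable π (2 * π)), h1]
  simp only [h2, intervalIntegral.integral_neg]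
  ring

/-- all periodic geodesics have length at least `2 π - O(t ^ 2)` -/
theorem length_ge {t : ℝ} (ht : 0 < t) (ht2 : t ≤ 1 / 10000) {γ : ℝ → E N}
    (hγ : IsGeodesic (rho t) γ) {T : ℝ} (hT : 0 < T) (hper : ∀ s, γ (s + T) = γ s) :
    2 * π * (1 - 20000000 * t ^ 2) ≤ T := by
  have hpi := Real.pi_gt_three
  have hpi2 : π < 3.15 := Real.pi_lt_d2
  rcases le_total (2 * π) T with hc | hc
  · have : 0 ≤ 2 * π * (20000000 * t ^ 2) := by positivity
    linarith
  have hu := period_ge ht ht2 hγ hT hc (by simpa using hper 0)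
  have hode := fun s => ode ht (by linarith) hγ s
  have hsp := speed_bounds ht ht2 hγ
  obtain ⟨hs, h1, h2, h3⟩ := hγ
  set q := T / (2 * π) with hq
  have hq1 : q ≤ 1 := by
    rw [hq, div_le_one (by positivity)]
    exact hc
  have hqT : T = 2 * π * q := by
    rw [hq]
    field_simp
  have hq0 : 0 < q := by positivity
  have hq2 : 1 - q ≤ 280 * t := by
    have : 2 * π * (1 - q) ≤ 1680 * t := by
      rw [mul_sub, mul_one, ← hqT]
      exact hu
    nlinarith
  set a := γ 0 with ha
  set b := deriv γ 0 with hb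
  have han : ‖a‖ = 1 := h1 0
  have hab : ⟪a, b⟫ = 0 := inner_gamma_deriv hs h1 0
  -- the rescaled curve
  let g : ℝ → E N := fun θ => γ (q * θ)
  let g' : ℝ → E N := fun θ => q • deriv γ (q * θ)
  let c : ℝ → E N := fun θ => cos θ • a + sin θ • b
  let c' : ℝ → E N := fun θ => -sin θ • a + cos θ • b
  have hg : ∀ θ, HasDerivAt g (g' θ) θ := by
    intro θ
    have h4 : HasDerivAt (fun θ : ℝ => q * θ) q θ := by
      simpa using (hasDerivAt_id θ).const_mul q
    exact (hasDerivAt_gamma hs (q * θ)).scomp θ h4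
  have hcd : ∀ θ, HasDerivAt c (c' θ) θ := by
    intro θ
    exact ((Real.hasDerivAt_cos θ).smul_const a).add ((Real.hasDerivAt_sin θ).smul_const b)
  have hcd' : ∀ θ, HasDerivAt c' (-c θ) θ := by
    intro θ
    have h4 := ((Real.hasDerivAt_sin θ).neg.smul_const a).add
      ((Real.hasDerivAt_cos θ).smul_const b)
    refine h4.congr_deriv ?_
    simp only [c]
    module
  have hw : ∀ θ ∈ Icc (0 : ℝ) (2 * π), ‖g θ - c θ‖ ≤ 4200 * t := by
    intro θ hθ
    have h4 := duhamel hs hode hθ.1
    have h5 : ‖γ (q * θ) - γ θ‖ ≤ 2 * ‖q * θ - θ‖ := by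
      refine Convex.norm_image_sub_le_of_norm_deriv_le (s := univ) (fun s _ =>
        (hs.differentiable (by simp)).differentiableAt) (fun s _ => (hsp s).2) convex_univ
        (mem_univ _) (mem_univ _)
    have h6 : ‖q * θ - θ‖ = (1 - q) * θ := by
      have : q * θ - θ = -((1 - q) * θ) := by ring
      rw [this, norm_neg, Real.norm_of_nonneg (mul_nonneg (by linarith) hθ.1)]
    have h7 : g θ - c θ = (γ (q * θ) - γ θ) + (γ θ - c θ) := by
      simp only [g]
      abel
    rw [h7]
    refine (norm_add_le _ _).trans ?_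
    rw [h6] at h5
    have h8 : (1 - q) * θ ≤ 280 * t * (2 * π) :=
      mul_le_mul hq2 hθ.2 hθ.1 (by positivity)
    have h9 : ‖γ θ - c θ‖ ≤ 84 * t * (2 * π) :=
      h4.trans (mul_le_mul_of_nonneg_left hθ.2 (by positivity))
    have h10 : t * π ≤ t * 3.15 := mul_le_mul_of_nonneg_left hpi2.le ht.le
    linarith
  have hgn : ∀ θ, ‖g θ‖ = 1 := fun θ => h1 _
  have hgsp : ∀ θ, rho t (g θ) * ‖g' θ‖ = q := by
    intro θ
    simp only [g, g', norm_smul, Real.norm_of_nonneg hq0.le]
    have := h2 (q * θ)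
    calc rho t (γ (q * θ)) * (q * ‖deriv γ (q * θ)‖)
        = q * (rho t (γ (q * θ)) * ‖deriv γ (q * θ)‖) := by ring
      _ = q := by rw [this, mul_one]
  -- the exact form
  let f : ℝ → ℝ := fun θ => ‖g' θ‖ ^ 2 - 1 + ‖g θ - c θ‖ ^ 2 - ‖g' θ - c' θ‖ ^ 2
  let Q : ℝ → ℝ := fun θ => ⟪c' θ, (2 : ℝ) • g θ - c θ⟫
  have hQ : ∀ θ, HasDerivAt Q (f θ) θ := by
    intro θ
    have h4 := (hcd' θ).inner ℝ (((hg θ).const_smul (2 : ℝ)).sub (hcd θ))
    refine h4.congr_deriv ?_
    simp only [f]
    have h5 : ‖g θ‖ ^ 2 = 1 := by rw [hgn]; norm_num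
    rw [@norm_sub_sq_real, @norm_sub_sq_real, h5]
    simp only [Pi.sub_apply, Pi.smul_apply, inner_sub_right, inner_smul_right, inner_neg_left,
      real_inner_self_eq_norm_sq]
    rw [real_inner_comm (g' θ) (c' θ), real_inner_comm (g θ) (c θ)]
    ring
  have hgcont : Continuous g := continuous_iff_continuousAt.2 fun θ => (hg θ).continuousAt
  have hccont : Continuous c := continuous_iff_continuousAt.2 fun θ => (hcd θ).continuousAt
  have hc'cont : Continuous c' := continuous_iff_continuousAt.2 fun θ => (hcd' θ).continuousAt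
  have hg'cont : Continuous g' := by
    have h4 : Continuous (deriv γ) :=
      continuous_iff_continuousAt.2 fun θ => (hasDerivAt_gamma' hs θ).continuousAt
    exact (h4.comp (continuous_const.mul continuous_id)).const_smul q
  have hfcont : Continuous f := by
    simp only [f]
    fun_prop
  have hint : ∫ θ in (0 : ℝ)..(2 * π), f θ = 0 := by
    rw [intervalIntegral.integral_eq_sub_of_hasDerivAt (fun θ _ => hQ θ)
      (hfcont.intervalIntegrable _ _)]
    have h4 : g (2 * π) = g 0 := by
      simp only [g]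
      have h5 : q * (2 * π) = q * 0 + T := by rw [hqT]; ring
      rw [h5, hper]
    simp only [Q, h4, c, c']
    simp [Real.cos_two_pi, Real.sin_two_pi]
  -- the pointwise estimate
  have hpt : ∀ θ ∈ Icc (0 : ℝ) (2 * π),
      f θ + (1 - 20000000 * t ^ 2) + 2 * t * cub (c θ) ≤ q ^ 2 := by
    intro θ hθ
    have hwθ := hw θ hθ
    have h4 := hgsp θ
    obtain ⟨h5, h6⟩ := rho_bounds ht (hgn θ)
    set r := rho t (g θ) with hr
    set v := ‖g' θ‖ with hv
    have hv0 : 0 ≤ v := norm_nonneg _
    have hr0 : 0 < r := by linarith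
    -- `v` is close to one
    have hv1 : v ≤ 1 + 2 * t := by
      by_contra hcon
      push Not at hcon
      have : (1 - t) * (1 + 2 * t) ≤ r * v :=
        mul_le_mul h5 hcon.le (by linarith) hr0.le
      nlinarith
    have hv2 : 1 - 282 * t ≤ v := by
      by_contra hcon
      push Not at hcon
      have : r * v ≤ (1 + t) * (1 - 282 * t) := mul_le_mul h6 hcon.le hv0 (by linarith)
      nlinarith
    have hv3 : |v ^ 2 - 1| ≤ 600 * t := by
      rw [abs_le]
      constructor <;> nlinarith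
    have hcn : ‖c θ‖ ≤ 2 := by
      have : c θ = g θ - (g θ - c θ) := by abel
      rw [this]
      refine (norm_sub_le _ _).trans ?_
      rw [hgn]
      linarith
    have hcub : |cub (g θ) - cub (c θ)| ≤ 12 * (4200 * t) := by
      refine (cub_sub_le (R := 2) (by rw [hgn]; norm_num) hcn).trans ?_
      nlinarith
    have hcg : |cub (g θ)| ≤ 1 := by
      have := abs_cub (g θ)
      rwa [hgn, one_pow] at this
    have hprod : |cub (g θ) * v ^ 2 - cub (c θ)| ≤ 51000 * t := by
      have h7 : cub (g θ) * v ^ 2 - cub (c θ) =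
          cub (g θ) * (v ^ 2 - 1) + (cub (g θ) - cub (c θ)) := by ring
      rw [h7]
      refine (abs_add_le _ _).trans ?_
      rw [abs_mul]
      have h8 : |cub (g θ)| * |v ^ 2 - 1| ≤ 1 * (600 * t) :=
        mul_le_mul hcg hv3 (abs_nonneg _) (by norm_num)
      linarith
    have hrdef : r = 1 + t * cub (g θ) := rfl
    have h9 : q ^ 2 = r ^ 2 * v ^ 2 := by
      rw [← h4]
      ring
    have h10 : (1 + 2 * t * cub (g θ)) * v ^ 2 ≤ q ^ 2 := by
      rw [h9]
      refine mul_le_mul_of_nonneg_right ?_ (sq_nonneg _)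
      rw [hrdef]
      nlinarith [sq_nonneg (t * cub (g θ))]
    have h11 : f θ + 1 - ‖g θ - c θ‖ ^ 2 ≤ v ^ 2 := by
      simp only [f]
      have := sq_nonneg ‖g' θ - c' θ‖
      rw [← hv]
      linarith
    have h12 : ‖g θ - c θ‖ ^ 2 ≤ (4200 * t) ^ 2 := pow_le_pow_left₀ (norm_nonneg _) hwθ 2
    rw [abs_le] at hprod
    have h13 : 2 * t * (cub (g θ) * v ^ 2 - cub (c θ)) ≥ 2 * t * (-(51000 * t)) :=
      mul_le_mul_of_nonneg_left hprod.1 (by positivity)
    nlinarith
  have hcubcont : Continuous fun θ => cub (c θ) :=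
    (contDiff_cub (N := N) (n := 0)).continuous.comp hccont
  have i1 : IntervalIntegrable f volume 0 (2 * π) := hfcont.intervalIntegrable _ _
  have i2 : IntervalIntegrable (fun _ : ℝ => 1 - 20000000 * t ^ 2) volume 0 (2 * π) :=
    intervalIntegrable_const
  have i3 : IntervalIntegrable (fun θ => 2 * t * cub (c θ)) volume 0 (2 * π) :=
    (continuous_const.mul hcubcont).intervalIntegrable _ _
  have hI : ∫ θ in (0 : ℝ)..(2 * π), (f θ + (1 - 20000000 * t ^ 2) + 2 * t * cub (c θ)) =
      2 * π * (1 - 20000000 * t ^ 2) := by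
    rw [intervalIntegral.integral_add (i1.add i2) i3, intervalIntegral.integral_add i1 i2, hint,
      intervalIntegral.integral_const_mul, integral_cub_circle, intervalIntegral.integral_const]
    simp
  have hmono : ∫ θ in (0 : ℝ)..(2 * π), (f θ + (1 - 20000000 * t ^ 2) + 2 * t * cub (c θ)) ≤
      ∫ θ in (0 : ℝ)..(2 * π), q ^ 2 :=
    intervalIntegral.integral_mono_on (by positivity) ((i1.add i2).add i3)
      intervalIntegrable_const hpt
  rw [hI, intervalIntegral.integral_const, smul_eq_mul, sub_zero] at hmono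
  have h14 : 1 - 20000000 * t ^ 2 ≤ q ^ 2 := le_of_mul_le_mul_left hmono (by positivity)
  have h16 : q ^ 2 ≤ q := by nlinarith
  rw [hqT]
  exact mul_le_mul_of_nonneg_left (h14.trans h16) (by positivity)

end Pool.Agent.K7.H35.Z
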