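import Pool.Agent.K7.H35.Z.Path
import Pool.Agent.K7.H35.Z.Len

/-!
# Metrics on spheres all of whose periodic geodesics are longer than twice the diameter
-/

set_option autoImplicit false

open Real Set MeasureTheory Filter
open scoped RealInnerProductSpace Topology ContDiff

namespace Pool.Agent.K7.H35.Z

variable {N : ℕ}

theorem Joined.mono {ρ : E N → ℝ} {x y : E N} {D D' : ℝ} (h : Joined ρ x y D) (hD : D ≤ D') :
    Joined ρ x y D' := by
  obtain ⟨γ, b, h1, h2, h3, h4, h5, h6⟩ := h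
  exact ⟨γ, b, h1, h2, h3, h4, h5, h6.trans hD⟩

/-- points which are not antipodal -/
theorem far_path {t : ℝ} (ht : 0 < t) (ht2 : t ≤ 1 / 10000) {x y : E N} (hx : ‖x‖ = 1)
    (hy : ‖y‖ = 1) (he : 0 < ‖x + y‖) : Joined (rho t) x y ((1 + t) * (π - ‖x + y‖)) := by
  have hpi := Real.pi_gt_three
  set ε := ‖x + y‖ with hε
  have hε2 : ε ≤ 2 := by
    have := norm_add_le x y
    rw [hx, hy] at this
    linarith
  have hin : ⟪x, y⟫ = ε ^ 2 / 2 - 1 := by
    have h1 := norm_add_sq_real x y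
    rw [hx, hy, ← hε] at h1
    linarith
  by_cases hxy : x = y
  · subst hxy
    refine ⟨fun _ => x, 0, le_rfl, contDiff_const, fun _ => hx, rfl, rfl, ?_⟩
    rw [intervalIntegral.integral_same]
    have : 0 ≤ π - ε := by linarith
    positivity
  have hε3 : ε < 2 := by
    by_contra hcon
    push Not at hcon
    have h1 : ε = 2 := le_antisymm hε2 hcon
    rw [h1] at hin
    have h2 : ⟪x, y⟫ = 1 := by rw [hin]; norm_num
    exact hxy ((inner_eq_one_iff_of_norm_eq_one hx hy).1 h2)
  set κ := ⟪x, y⟫ with hκ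
  have hκ1 : -1 < κ := by nlinarith
  have hκ2 : κ < 1 := by nlinarith
  let τ := Real.arccos κ
  have hτ0 : 0 ≤ τ := Real.arccos_nonneg _
  have hcos : cos τ = κ := Real.cos_arccos hκ1.le hκ2.le
  have hsin : sin τ ^ 2 = 1 - κ ^ 2 := by
    have := Real.sin_sq_add_cos_sq τ
    rw [hcos] at this
    linarith
  have hsin0 : 0 < sin τ := by
    have h1 : 0 ≤ sin τ := Real.sin_nonneg_of_nonneg_of_le_pi hτ0 (Real.arccos_le_pi _)
    have h2 : 0 < sin τ ^ 2 := by rw [hsin]; nlinarith
    rcases h1.lt_or_eq with h3 | h3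
    · exact h3
    · rw [← h3] at h2
      norm_num at h2
  have hτ : τ ≤ π - ε := by
    have h1 : -cos ε ≤ κ := by
      have := Real.one_sub_sq_div_two_le_cos (x := ε)
      linarith
    have h2 : Real.arccos κ ≤ Real.arccos (-cos ε) := Real.arccos_le_arccos h1
    rw [← Real.cos_pi_sub, Real.arccos_cos (by linarith) (by linarith)] at h2
    exact h2
  let u : E N := (sin τ)⁻¹ • (y - κ • x)
  have hxu : ⟪x, u⟫ = 0 := by
    simp only [u, inner_smul_right, inner_sub_right, real_inner_self_eq_norm_sq, hx]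
    rw [← hκ]
    ring
  have hun : ‖u‖ = 1 := by
    have h1 : ‖u‖ ^ 2 = 1 := by
      simp only [u]
      rw [norm_smul, mul_pow, @norm_sub_sq_real, norm_smul, hy, hx, inner_smul_right,
        real_inner_comm x y, ← hκ, norm_inv, Real.norm_of_nonneg hsin0.le, mul_one,
        Real.norm_eq_abs, sq_abs, inv_pow, hsin]
      have : (1 - κ ^ 2) ≠ 0 := by nlinarith
      field_simp
      ring
    have h2 := norm_nonneg u
    nlinarith
  let γ : ℝ → E N := fun s => cos s • x + sin s • u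
  have hγsm : ContDiff ℝ ∞ γ := (Real.contDiff_cos.smul contDiff_const).add
    (Real.contDiff_sin.smul contDiff_const)
  have hux : ⟪u, x⟫ = 0 := by rw [real_inner_comm]; exact hxu
  have hγn : ∀ s, ‖γ s‖ = 1 := by
    intro s
    have h2 : ‖γ s‖ ^ 2 = 1 := by
      rw [← real_inner_self_eq_norm_sq]
      simp only [γ, inner_add_left, inner_add_right, inner_smul_left, inner_smul_right,
        real_inner_self_eq_norm_sq, hxu, hux, hx, hun, RCLike.conj_to_real]
      have := Real.sin_sq_add_cos_sq s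
      nlinarith
    have h3 := norm_nonneg (γ s)
    nlinarith
  have hγd : ∀ s, ‖deriv γ s‖ = 1 := by
    intro s
    have h1 : HasDerivAt γ (-sin s • x + cos s • u) s :=
      ((Real.hasDerivAt_cos s).smul_const x).add ((Real.hasDerivAt_sin s).smul_const u)
    rw [h1.deriv]
    have h2 : ‖-sin s • x + cos s • u‖ ^ 2 = 1 := by
      rw [← real_inner_self_eq_norm_sq]
      simp only [inner_add_left, inner_add_right, inner_smul_left, inner_smul_right,
        real_inner_self_eq_norm_sq, hxu, hux, hx, hun, RCLike.conj_to_real]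
      have := Real.sin_sq_add_cos_sq s
      nlinarith
    have h3 := norm_nonneg (-sin s • x + cos s • u)
    nlinarith
  refine ⟨γ, τ, hτ0, hγsm, hγn, ?_, ?_, ?_⟩
  · simp [γ]
  · simp only [γ, u, hcos, smul_smul]
    rw [mul_inv_cancel₀ hsin0.ne', one_smul]
    abel
  · simp only [hγd, mul_one]
    have h1 : ∫ s in (0 : ℝ)..τ, rho t (γ s) ≤ ∫ s in (0 : ℝ)..τ, (1 + t) := by
      refine intervalIntegral.integral_mono_on hτ0 ?_ intervalIntegrable_const
        fun s _ => (rho_bounds ht (hγn s)).2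
      exact ((contDiff_rho (n := 0) t).continuous.comp hγsm.continuous).intervalIntegrable _ _
    refine h1.trans ?_
    rw [intervalIntegral.integral_const, smul_eq_mul, sub_zero, mul_comm]
    exact mul_le_mul_of_nonneg_left hτ (by linarith)

theorem main (hN : 4 ≤ N) : ∃ c t₀ : ℝ, 0 < c ∧ 0 < t₀ ∧ t₀ ≤ 1 / 10000 ∧
    ∀ t : ℝ, 0 < t → t < t₀ → ∃ D : ℝ, 0 < D ∧
      (∀ x y : E N, ‖x‖ = 1 → ‖y‖ = 1 → Joined (rho t) x y D) ∧
      ∀ (γ : ℝ → E N) (T : ℝ), IsGeodesic (rho t) γ → 0 < T → (∀ s, γ (s + T) = γ s) →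
        (2 + c * t) * D ≤ T := by
  have hpi := Real.pi_gt_three
  have hpi2 : π < 3.15 := Real.pi_lt_d2
  obtain ⟨δ0, hδ0, hδ⟩ := unif hN 5
  obtain ⟨δ, hδ1⟩ : ∃ δ, δ = min δ0 1 := ⟨_, rfl⟩
  have hδpos : 0 < δ := by rw [hδ1]; exact lt_min hδ0 one_pos
  have hδle : δ ≤ 1 := by rw [hδ1]; exact min_le_right _ _
  have hδle0 : δ ≤ δ0 := by rw [hδ1]; exact min_le_left _ _
  refine ⟨δ / (2 * π), δ / 1000000000, by positivity, by positivity, by linarith,
    fun t ht htt => ?_⟩
  have ht1 : 1000000000 * t < δ := by linarith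
  have ht2 : t ≤ 1 / 10000 := by linarith
  have htt2 : 1000000000 * t ^ 2 ≤ δ * t := by nlinarith
  refine ⟨π - δ / 2 * t, by nlinarith, fun x y hx hy => ?_, fun γ T hγ hT hper => ?_⟩
  · rcases le_total ‖x + y‖ (5 * t) with hc | hc
    · set e := x + y with he
      have he1 : ‖e‖ ≤ 1 / 4 := by linarith
      have hdn : 0 < ‖x - y‖ := by
        rw [norm_pos_iff, sub_ne_zero]
        intro h
        have : ‖e‖ = 2 := by
          rw [he, ← h, ← two_smul ℝ x, norm_smul, hx]
          norm_num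
        linarith
      have hun : ‖‖x - y‖⁻¹ • (x - y)‖ = 1 := by
        rw [norm_smul, norm_inv, norm_norm]
        field_simp
      obtain ⟨m, hm, hum, hneg⟩ := hδ (‖x - y‖⁻¹ • (x - y)) (t⁻¹ • e) hun (by
        rw [norm_smul, norm_inv, Real.norm_of_nonneg ht.le, inv_mul_le_iff₀ ht]
        linarith)
      have hxm : ⟪x - y, m⟫ = 0 := by
        rw [inner_smul_left] at hum
        rcases mul_eq_zero.1 hum with h | h
        · exfalso
          have h2 : ‖x - y‖⁻¹ = 0 := by simpa using h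
          exact (inv_pos.2 hdn).ne' h2
        · exact h
      refine (near_path ht ht2 hx hy he1 hm hxm).mono ?_
      rw [inner_smul_left, RCLike.conj_to_real] at hneg
      rw [← he]
      set H := HF (‖x - y‖⁻¹ • (x - y)) m
      have h1 : ⟪e, m⟫ = t * (t⁻¹ * ⟪e, m⟫) := by field_simp
      have h2 : t * (H - t⁻¹ * ⟪e, m⟫) ≤ t * (-δ) :=
        mul_le_mul_of_nonneg_left (by linarith) ht.le
      have h3 : π * ‖e‖ ^ 2 ≤ 3.15 * (5 * t) ^ 2 :=
        mul_le_mul hpi2.le (pow_le_pow_left₀ (norm_nonneg _) hc 2) (by positivity) (by norm_num)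
      have h4 : t * (50 * ‖e‖) ≤ t * (50 * (5 * t)) := by
        have := norm_nonneg e
        nlinarith
      have h5 : π - ⟪e, m⟫ + π * ‖e‖ ^ 2 + t * (H + 50 * ‖e‖) =
          π + t * (H - t⁻¹ * ⟪e, m⟫) + π * ‖e‖ ^ 2 + t * (50 * ‖e‖) := by
        have : t * (t⁻¹ * ⟪e, m⟫) = ⟪e, m⟫ := h1.symm
        linear_combination this
      rw [h5]
      nlinarith
    · refine (far_path ht ht2 hx hy (lt_of_lt_of_le (by linarith) hc)).mono ?_
      nlinarith
  · refine le_trans ?_ (length_ge ht ht2 hγ hT hper)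
    have h1 : (2 + δ / (2 * π) * t) * (π - δ / 2 * t) =
        2 * π - δ / 2 * t - δ / (2 * π) * (δ / 2) * t ^ 2 := by
      field_simp
      ring
    rw [h1]
    have h2 : 0 ≤ δ / (2 * π) * (δ / 2) * t ^ 2 := by positivity
    have h3 : 2 * π * (1 - 20000000 * t ^ 2) = 2 * π - 40000000 * π * t ^ 2 := by ring
    rw [h3]
    have h4 : 40000000 * π * t ^ 2 ≤ 40000000 * 3.15 * t ^ 2 := by
      have := sq_nonneg t
      nlinarith
    have h5 : 0 ≤ δ * t := by positivity
    linarith

end Pool.Agent.K7.H35.Z
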