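import Pool.Agent.K7.H35.Z.Cub

/-!
# Nondegeneracy of the cubic form
-/

set_option autoImplicit false

open Real Set MeasureTheory
open scoped RealInnerProductSpace Topology

namespace Pool.Agent.K7.H35.Z

variable {N : ℕ}

/-- a vector supported by two coordinates -/
def v2 (i j : Fin N) (a b : ℝ) (k : Fin N) : ℝ := if k = i then a else if k = j then b else 0

theorem v2_l (i j : Fin N) (a b : ℝ) : v2 i j a b i = a := by simp [v2]

theorem v2_r {i j : Fin N} (h : i ≠ j) (a b : ℝ) : v2 i j a b j = b := by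
  simp [v2, h.symm]

theorem v2_o {i j k : Fin N} (h1 : k ≠ i) (h2 : k ≠ j) (a b : ℝ) : v2 i j a b k = 0 := by
  simp [v2, h1, h2]

theorem sum2 {i j : Fin N} (h : i ≠ j) (f : Fin N → ℝ) (hf : ∀ k, k ≠ i → k ≠ j → f k = 0) :
    ∑ k, f k = f i + f j :=
  Fintype.sum_eq_add i j h fun k hk => hf k hk.1 hk.2

theorem nondeg_aux (hN : 4 ≤ N) {x l : Fin N → ℝ} (hx : x ≠ 0)
    (h : ∀ m : Fin N → ℝ, ∑ i, x i * m i = 0 →
      ∑ i, m i ^ 3 = (∑ i, l i * m i) * ∑ i, m i ^ 2) : False := by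
  have hpol : ∀ m m' : Fin N → ℝ, ∑ i, x i * m i = 0 → ∑ i, x i * m' i = 0 →
      3 * ∑ i, m i ^ 2 * m' i = (∑ i, l i * m' i) * (∑ i, m i ^ 2) +
        2 * (∑ i, l i * m i) * ∑ i, m i * m' i := by
    intro m m' hm hm'
    have h1 := h (fun i => m i + m' i) (by
      simp only [mul_add, Finset.sum_add_distrib, hm, hm', add_zero])
    have h2 := h (fun i => m i - m' i) (by
      simp only [mul_sub, Finset.sum_sub_distrib, hm, hm', sub_zero])
    have h3 := h m' hm'
    have e1 : ∑ i, (m i + m' i) ^ 3 = ∑ i, m i ^ 3 + 3 * ∑ i, m i ^ 2 * m' i +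
        3 * ∑ i, m i * m' i ^ 2 + ∑ i, m' i ^ 3 := by
      rw [Finset.mul_sum, Finset.mul_sum, ← Finset.sum_add_distrib, ← Finset.sum_add_distrib,
        ← Finset.sum_add_distrib]
      exact Finset.sum_congr rfl fun i _ => by ring
    have e2 : ∑ i, (m i - m' i) ^ 3 = ∑ i, m i ^ 3 - 3 * ∑ i, m i ^ 2 * m' i +
        3 * ∑ i, m i * m' i ^ 2 - ∑ i, m' i ^ 3 := by
      rw [Finset.mul_sum, Finset.mul_sum, ← Finset.sum_sub_distrib, ← Finset.sum_add_distrib,
        ← Finset.sum_sub_distrib]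
      exact Finset.sum_congr rfl fun i _ => by ring
    have e3 : ∑ i, (m i + m' i) ^ 2 = ∑ i, m i ^ 2 + 2 * ∑ i, m i * m' i + ∑ i, m' i ^ 2 := by
      rw [Finset.mul_sum, ← Finset.sum_add_distrib, ← Finset.sum_add_distrib]
      exact Finset.sum_congr rfl fun i _ => by ring
    have e4 : ∑ i, (m i - m' i) ^ 2 = ∑ i, m i ^ 2 - 2 * ∑ i, m i * m' i + ∑ i, m' i ^ 2 := by
      rw [Finset.mul_sum, ← Finset.sum_sub_distrib, ← Finset.sum_add_distrib]
      exact Finset.sum_congr rfl fun i _ => by ring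
    have e5 : ∑ i, l i * (m i + m' i) = ∑ i, l i * m i + ∑ i, l i * m' i := by
      simp only [mul_add, Finset.sum_add_distrib]
    have e6 : ∑ i, l i * (m i - m' i) = ∑ i, l i * m i - ∑ i, l i * m' i := by
      simp only [mul_sub, Finset.sum_sub_distrib]
    rw [e1, e3, e5] at h1
    rw [e2, e4, e6] at h2
    linarith
  -- two more indices
  have hex : ∀ k l' : Fin N, ∃ i j : Fin N, i ≠ j ∧ i ≠ k ∧ i ≠ l' ∧ j ≠ k ∧ j ≠ l' := by
    intro k l'
    have hc : 1 < ((Finset.univ : Finset (Fin N)) \ {k, l'}).card := by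
      have h1 := Finset.le_card_sdiff ({k, l'} : Finset (Fin N)) Finset.univ
      have h2 : ({k, l'} : Finset (Fin N)).card ≤ 2 := Finset.card_le_two
      rw [Finset.card_univ, Fintype.card_fin] at h1
      omega
    obtain ⟨i, hi, j, hj, hij⟩ := Finset.one_lt_card.1 hc
    simp only [Finset.mem_sdiff, Finset.mem_univ, true_and, Finset.mem_insert,
      Finset.mem_singleton, not_or] at hi hj
    exact ⟨i, j, hij, hi.1, hi.2, hj.1, hj.2⟩
  have hl0 : ∀ k l' : Fin N, k ≠ l' → ∀ a b : ℝ, x k * a + x l' * b = 0 →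
      l k * a + l l' * b = 0 := by
    intro k l' hkl a b hab
    obtain ⟨i, j, hij, hik, hil, hjk, hjl⟩ := hex k l'
    -- a nonzero vector on `i, j`
    obtain ⟨c, d, hcd, hne⟩ : ∃ c d : ℝ, x i * c + x j * d = 0 ∧ c ^ 2 + d ^ 2 ≠ 0 := by
      by_cases h0 : x i = 0 ∧ x j = 0
      · exact ⟨1, 0, by rw [h0.1, h0.2]; ring, by norm_num⟩
      · refine ⟨x j, -x i, by ring, fun h1 => h0 ?_⟩
        constructor <;> nlinarith [sq_nonneg (x i), sq_nonneg (x j)]
    have hm : ∑ s, x s * v2 i j c d s = 0 := by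
      rw [sum2 hij _ fun s h1 h2 => by rw [v2_o h1 h2, mul_zero], v2_l, v2_r hij]
      exact hcd
    have hm' : ∑ s, x s * v2 k l' a b s = 0 := by
      rw [sum2 hkl _ fun s h1 h2 => by rw [v2_o h1 h2, mul_zero], v2_l, v2_r hkl]
      exact hab
    have h1 := hpol _ _ hm hm'
    have h2 : ∑ s, v2 i j c d s ^ 2 * v2 k l' a b s = 0 := by
      refine Finset.sum_eq_zero fun s _ => ?_
      by_cases hs : s = k ∨ s = l'
      · have : v2 i j c d s = 0 := by
          rcases hs with rfl | rfl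
          · exact v2_o hik.symm hjk.symm _ _
          · exact v2_o hil.symm hjl.symm _ _
        rw [this]
        ring
      · push Not at hs
        rw [v2_o hs.1 hs.2, mul_zero]
    have h3 : ∑ s, v2 i j c d s * v2 k l' a b s = 0 := by
      refine Finset.sum_eq_zero fun s _ => ?_
      by_cases hs : s = k ∨ s = l'
      · have : v2 i j c d s = 0 := by
          rcases hs with rfl | rfl
          · exact v2_o hik.symm hjk.symm _ _
          · exact v2_o hil.symm hjl.symm _ _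
        rw [this]
        ring
      · push Not at hs
        rw [v2_o hs.1 hs.2, mul_zero]
    have h4 : ∑ s, v2 i j c d s ^ 2 = c ^ 2 + d ^ 2 := by
      rw [sum2 hij _ fun s h1 h2 => by rw [v2_o h1 h2]; ring, v2_l, v2_r hij]
    have h5 : ∑ s, l s * v2 k l' a b s = l k * a + l l' * b := by
      rw [sum2 hkl _ fun s h1 h2 => by rw [v2_o h1 h2, mul_zero], v2_l, v2_r hkl]
    rw [h2, h3, h4, h5] at h1
    have h6 : (l k * a + l l' * b) * (c ^ 2 + d ^ 2) = 0 := by linarith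
    rcases mul_eq_zero.1 h6 with h7 | h7
    · exact h7
    · exact absurd h7 hne
  have hxe : ∀ k l' : Fin N, x k = x l' := by
    intro k l'
    by_cases hkl : k = l'
    · rw [hkl]
    have h1 := hl0 k l' hkl (x l') (-x k) (by ring)
    have h2 := h (v2 k l' (x l') (-x k)) (by
      rw [sum2 hkl _ fun s h1 h2 => by rw [v2_o h1 h2, mul_zero], v2_l, v2_r hkl]
      ring)
    have h3 : ∑ s, l s * v2 k l' (x l') (-x k) s = 0 := by
      rw [sum2 hkl _ fun s h1 h2 => by rw [v2_o h1 h2, mul_zero], v2_l, v2_r hkl]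
      exact h1
    rw [h3, zero_mul, sum2 hkl _ fun s h1 h2 => by rw [v2_o h1 h2]; ring, v2_l, v2_r hkl] at h2
    have h4 : x l' ^ 3 = x k ^ 3 := by linarith
    have h5 : x l' = x k := by
      have := (Odd.strictMono_pow (R := ℝ) (n := 3) (by decide)).injective h4
      exact this
    exact h5.symm
  have hκ : ∀ k, x k ≠ 0 := by
    intro k hk
    apply hx
    funext j
    rw [hxe j k, hk]
    rfl
  -- three indices
  have i0 : Fin N := ⟨0, by omega⟩
  let p0 : Fin N := ⟨0, by omega⟩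
  let p1 : Fin N := ⟨1, by omega⟩
  let p2 : Fin N := ⟨2, by omega⟩
  have h01 : p0 ≠ p1 := by simp [p0, p1]
  have h12 : p1 ≠ p2 := by simp [p1, p2]
  have h02 : p0 ≠ p2 := by simp [p0, p2]
  have h1 := hpol (v2 p0 p1 1 (-1)) (v2 p1 p2 1 (-1)) (by
      rw [sum2 h01 _ fun s h1 h2 => by rw [v2_o h1 h2, mul_zero], v2_l, v2_r h01, hxe p0 p1]
      ring) (by
      rw [sum2 h12 _ fun s h1 h2 => by rw [v2_o h1 h2, mul_zero], v2_l, v2_r h12, hxe p1 p2]
      ring)
  have h2 : ∑ s, l s * v2 p0 p1 1 (-1) s = 0 := by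
    rw [sum2 h01 _ fun s h1 h2 => by rw [v2_o h1 h2, mul_zero], v2_l, v2_r h01]
    exact hl0 p0 p1 h01 1 (-1) (by rw [hxe p0 p1]; ring)
  have h3 : ∑ s, l s * v2 p1 p2 1 (-1) s = 0 := by
    rw [sum2 h12 _ fun s h1 h2 => by rw [v2_o h1 h2, mul_zero], v2_l, v2_r h12]
    exact hl0 p1 p2 h12 1 (-1) (by rw [hxe p1 p2]; ring)
  have h4 : ∑ s, v2 p0 p1 1 (-1) s ^ 2 * v2 p1 p2 1 (-1) s = 1 := by
    rw [sum2 h12 _ fun s h1 h2 => by rw [v2_o h1 h2, mul_zero], v2_l, v2_r h12, v2_r h01,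
      v2_o h02.symm h12.symm]
    ring
  rw [h2, h3, h4] at h1
  norm_num at h1

end Pool.Agent.K7.H35.Z
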