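import Pool.Agent.K7.H35.Z.Unif
import Pool.Agent.K7.H35.Z.Geo

/-!
# Short paths between nearly antipodal points
-/

set_option autoImplicit false
set_option maxHeartbeats 4000000

open Real Set MeasureTheory Filter
open scoped RealInnerProductSpace Topology ContDiff

namespace Pool.Agent.K7.H35.Z

variable {N : ℕ}

/-- `x` and `y` are joined by a smooth curve of length at most `D` -/
def Joined (ρ : E N → ℝ) (x y : E N) (D : ℝ) : Prop :=
  ∃ (γ : ℝ → E N) (b : ℝ), 0 ≤ b ∧ ContDiff ℝ ∞ γ ∧ (∀ s, ‖γ s‖ = 1) ∧ γ 0 = x ∧ γ b = y ∧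
    ∫ s in (0 : ℝ)..b, ρ (γ s) * ‖deriv γ s‖ ≤ D

theorem cub_circle (u m : E N) (s : ℝ) : cub (cos s • u + sin s • m) =
    cos s ^ 3 * cub u + 3 * (cos s ^ 2 * sin s) * ∑ i, u i ^ 2 * m i +
      3 * (cos s * sin s ^ 2) * ∑ i, u i * m i ^ 2 + sin s ^ 3 * cub m := by
  unfold cub
  rw [Finset.mul_sum, Finset.mul_sum, Finset.mul_sum, Finset.mul_sum, ← Finset.sum_add_distrib,
    ← Finset.sum_add_distrib, ← Finset.sum_add_distrib]
  refine Finset.sum_congr rfl fun i _ => ?_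
  simp only [PiLp.add_apply, PiLp.smul_apply, smul_eq_mul]
  ring

theorem integral_half (u m : E N) :
    ∫ s in (0 : ℝ)..π, cub (cos s • u + sin s • m) = HF u m := by
  have hd : ∀ s : ℝ, HasDerivAt (fun s => (sin s - sin s ^ 3 / 3) * cub u +
      3 * (-cos s ^ 3 / 3) * ∑ i, u i ^ 2 * m i + 3 * (sin s ^ 3 / 3) * ∑ i, u i * m i ^ 2 +
      (-cos s + cos s ^ 3 / 3) * cub m) (cub (cos s • u + sin s • m)) s := by
    intro s
    have hs := Real.hasDerivAt_sin s
    have hc := Real.hasDerivAt_cos s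
    have h1 := (((hs.sub ((hs.pow 3).div_const 3)).mul_const (cub u)).add
      ((((hc.pow 3).neg.div_const 3).const_mul 3).mul_const (∑ i, u i ^ 2 * m i))).add
      ((((hs.pow 3).div_const 3).const_mul 3).mul_const (∑ i, u i * m i ^ 2))
    have h2 := h1.add ((hc.neg.add ((hc.pow 3).div_const 3)).mul_const (cub m))
    refine h2.congr_deriv ?_
    rw [cub_circle]
    have h3 : sin s ^ 2 = 1 - cos s ^ 2 := by
      have := Real.sin_sq_add_cos_sq s
      linarith
    simp only [Nat.cast_ofNat, Nat.add_one_sub_one]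
    have h4 : cos s ^ 3 = cos s * (1 - sin s ^ 2) := by rw [h3]; ring
    have h5 : sin s ^ 3 = sin s * (1 - cos s ^ 2) := by rw [← h3]; ring
    rw [h4, h5]
    ring
  rw [intervalIntegral.integral_eq_sub_of_hasDerivAt (fun s _ => hd s)]
  · simp only [Real.sin_pi, Real.cos_pi, Real.sin_zero, Real.cos_zero, HF]
    ring
  · refine Continuous.intervalIntegrable ?_ _ _
    exact continuous_cub.comp (by fun_prop)

/-- nearly antipodal points -/
theorem near_path {t : ℝ} (ht : 0 < t) (ht2 : t ≤ 1 / 10000) {x y : E N} (hx : ‖x‖ = 1)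
    (hy : ‖y‖ = 1) (he : ‖x + y‖ ≤ 1 / 4) {m : E N} (hm : ‖m‖ = 1) (hxm : ⟪x - y, m⟫ = 0) :
    Joined (rho t) x y (π - ⟪x + y, m⟫ + π * ‖x + y‖ ^ 2 +
      t * (HF (‖x - y‖⁻¹ • (x - y)) m + 50 * ‖x + y‖)) := by
  set e := x + y with he'
  set d := x - y with hd'
  set ε := ‖e‖ with hε
  have hε0 : 0 ≤ ε := norm_nonneg _
  have hed : ⟪e, d⟫ = 0 := by
    rw [he', hd', inner_add_left, inner_sub_right, inner_sub_right, real_inner_self_eq_norm_sq,
      real_inner_self_eq_norm_sq, hx, hy, real_inner_comm x y]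
    ring
  have hdn : ‖d‖ ^ 2 = 4 - ε ^ 2 := by
    have h1 := parallelogram_law_with_norm ℝ x y
    rw [hx, hy] at h1
    rw [hε, hd', he']
    nlinarith
  have hd0 : 0 < ‖d‖ := by
    by_contra hcon
    push Not at hcon
    have : ‖d‖ = 0 := le_antisymm hcon (norm_nonneg _)
    rw [this] at hdn
    nlinarith
  have hdl : ‖d‖ ≤ 2 := by nlinarith
  have hdl2 : 2 - ε ^ 2 ≤ ‖d‖ := by nlinarith
  -- the curve
  let p : ℝ → E N := fun s => (1 / 2 : ℝ) • e + cos s • ((1 / 2 : ℝ) • d) + sin s • m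
  let p' : ℝ → E N := fun s => -sin s • ((1 / 2 : ℝ) • d) + cos s • m
  have hp : ∀ s, HasDerivAt p (p' s) s := by
    intro s
    have h1 := (((Real.hasDerivAt_cos s).smul_const ((1 / 2 : ℝ) • d)).const_add
      ((1 / 2 : ℝ) • e)).add ((Real.hasDerivAt_sin s).smul_const m)
    exact h1
  have hpsm : ContDiff ℝ ∞ p := by
    simp only [p]
    exact (contDiff_const.add (Real.contDiff_cos.smul contDiff_const)).add
      (Real.contDiff_sin.smul contDiff_const)
  have hem : |⟪e, m⟫| ≤ ε := by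
    have := abs_real_inner_le_norm e m
    rwa [hm, mul_one] at this
  have hpn : ∀ s, ‖p s‖ ^ 2 = 1 + ε ^ 2 / 4 * sin s ^ 2 + sin s * ⟪e, m⟫ := by
    intro s
    have h1 : ⟪d, e⟫ = 0 := by rw [real_inner_comm]; exact hed
    have h2 : ⟪m, e⟫ = ⟪e, m⟫ := real_inner_comm _ _
    have h3 : ⟪m, d⟫ = 0 := by rw [real_inner_comm]; exact hxm
    rw [← real_inner_self_eq_norm_sq]
    simp only [p, inner_add_left, inner_add_right, inner_smul_left, inner_smul_right,
      real_inner_self_eq_norm_sq, hed, h1, h2, h3, hxm, hm, hdn, ← hε,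
      RCLike.conj_to_real]
    have := Real.sin_sq_add_cos_sq s
    have h4 : cos s ^ 2 = 1 - sin s ^ 2 := by linarith
    ring_nf
    rw [h4]
    ring
  have hσ : ∀ s, |sin s * ⟪e, m⟫| ≤ ε := by
    intro s
    rw [abs_mul]
    have := abs_sin_le_one s
    nlinarith [abs_nonneg (sin s), abs_nonneg ⟪e, m⟫]
  have hp1 : ∀ s, 1 + sin s * ⟪e, m⟫ ≤ ‖p s‖ ^ 2 := by
    intro s
    rw [hpn]
    nlinarith [sq_nonneg (ε * sin s)]
  have hppos : ∀ s, 0 < ‖p s‖ := by
    intro s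
    have h1 := hp1 s
    have h2 := (abs_le.1 (hσ s)).1
    by_contra hcon
    push Not at hcon
    have : ‖p s‖ = 0 := le_antisymm hcon (norm_nonneg _)
    rw [this] at h1
    nlinarith
  have hp'n : ∀ s, ‖p' s‖ ≤ 1 := by
    intro s
    refine le_of_sq_le_sq ?_ zero_le_one
    have h3 : ⟪m, d⟫ = 0 := by rw [real_inner_comm]; exact hxm
    rw [← real_inner_self_eq_norm_sq]
    simp only [p', inner_add_left, inner_add_right, inner_smul_left, inner_smul_right,
      real_inner_self_eq_norm_sq, h3, hxm, hm, hdn, RCLike.conj_to_real]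
    have := Real.sin_sq_add_cos_sq s
    nlinarith [sq_nonneg (ε * sin s)]
  let γ : ℝ → E N := fun s => ‖p s‖⁻¹ • p s
  have hpne : ∀ s, p s ≠ 0 := fun s => norm_pos_iff.1 (hppos s)
  have hγsm : ContDiff ℝ ∞ γ := by
    have h1 : ContDiff ℝ ∞ fun s => ‖p s‖ := hpsm.norm ℝ hpne
    exact (h1.inv fun s => (hppos s).ne').smul hpsm
  have hγn : ∀ s, ‖γ s‖ = 1 := by
    intro s
    have := hppos s
    simp only [γ]
    rw [norm_smul, norm_inv, norm_norm]
    field_simp
  have hγd : ∀ s, ‖deriv γ s‖ ≤ ‖p s‖⁻¹ := by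
    intro s
    have h1 : HasDerivAt (fun s => ‖p s‖ ^ 2) (2 * ⟪p s, p' s⟫) s := (hp s).norm_sq
    have h2 : HasDerivAt (fun s => ‖p s‖) (⟪p s, p' s⟫ / ‖p s‖) s := by
      have h3 := h1.sqrt (by
        have := hppos s
        positivity)
      have h4 : (fun s => √(‖p s‖ ^ 2)) = fun s => ‖p s‖ := by
        funext s
        rw [Real.sqrt_sq (norm_nonneg _)]
      rw [h4] at h3
      refine h3.congr_deriv ?_
      rw [Real.sqrt_sq (norm_nonneg _)]
      have := hppos s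
      field_simp
    have h5 := (h2.inv (hppos s).ne').smul (hp s)
    have h6 : HasDerivAt γ (‖p s‖⁻¹ • p' s - ((⟪p s, p' s⟫ / ‖p s‖) / ‖p s‖ ^ 2) • p s) s := by
      refine h5.congr_deriv ?_
      simp only [Pi.inv_apply]
      module
    rw [h6.deriv]
    have hpos := hppos s
    refine le_of_sq_le_sq ?_ (by positivity)
    rw [@norm_sub_sq_real, norm_smul, norm_smul, inner_smul_left, inner_smul_right,
      real_inner_comm (p s) (p' s)]
    simp only [norm_inv, RCLike.conj_to_real, Real.norm_eq_abs, abs_norm]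
    have h7 := hp'n s
    have h8 : ‖p' s‖ ^ 2 ≤ 1 := by nlinarith [norm_nonneg (p' s)]
    have h9 : (|⟪p s, p' s⟫ / ‖p s‖ / ‖p s‖ ^ 2| * ‖p s‖) ^ 2 =
        (⟪p s, p' s⟫ / ‖p s‖ / ‖p s‖ ^ 2) ^ 2 * ‖p s‖ ^ 2 := by
      rw [mul_pow, sq_abs]
    rw [h9]
    have h10 : (‖p s‖⁻¹ * ‖p' s‖) ^ 2 - 2 * (‖p s‖⁻¹ * (⟪p s, p' s⟫ / ‖p s‖ / ‖p s‖ ^ 2 *
        ⟪p s, p' s⟫)) + (⟪p s, p' s⟫ / ‖p s‖ / ‖p s‖ ^ 2) ^ 2 * ‖p s‖ ^ 2 =
        ‖p s‖⁻¹ ^ 2 * ‖p' s‖ ^ 2 - (⟪p s, p' s⟫ / ‖p s‖ ^ 2) ^ 2 := by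
      field_simp
      ring
    rw [h10]
    have h11 : ‖p s‖⁻¹ ^ 2 * ‖p' s‖ ^ 2 ≤ ‖p s‖⁻¹ ^ 2 * 1 :=
      mul_le_mul_of_nonneg_left h8 (by positivity)
    have h12 := sq_nonneg (⟪p s, p' s⟫ / ‖p s‖ ^ 2)
    linarith
  -- the comparison curve
  let u : E N := ‖d‖⁻¹ • d
  have hun : ‖u‖ = 1 := by
    simp only [u]
    rw [norm_smul, norm_inv, norm_norm]
    field_simp
  have hum : ⟪u, m⟫ = 0 := by
    simp only [u]
    rw [inner_smul_left, hxm, mul_zero]
  let c : ℝ → E N := fun s => cos s • u + sin s • m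
  have hcn : ∀ s, ‖c s‖ = 1 := by
    intro s
    have h1 : ⟪m, u⟫ = 0 := by rw [real_inner_comm]; exact hum
    have h2 : ‖c s‖ ^ 2 = 1 := by
      rw [← real_inner_self_eq_norm_sq]
      simp only [c, inner_add_left, inner_add_right, inner_smul_left, inner_smul_right,
        real_inner_self_eq_norm_sq, h1, hum, hm, hun, RCLike.conj_to_real]
      have := Real.sin_sq_add_cos_sq s
      nlinarith
    have h3 := norm_nonneg (c s)
    nlinarith
  have hpc : ∀ s, ‖p s - c s‖ ≤ ε := by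
    intro s
    have h1 : p s - c s = (1 / 2 : ℝ) • e + cos s • ((‖d‖ / 2 - 1) • u) := by
      simp only [p, c, u, smul_smul]
      have h2 : (‖d‖ / 2 - 1) * ‖d‖⁻¹ = 1 / 2 - ‖d‖⁻¹ := by
        field_simp
      have h3 : cos s * ((‖d‖ / 2 - 1) * ‖d‖⁻¹) = cos s * (1 / 2) - cos s * ‖d‖⁻¹ := by
        rw [h2]
        ring
      rw [h3]
      module
    rw [h1]
    refine (norm_add_le _ _).trans ?_
    rw [norm_smul, norm_smul, norm_smul, hun, mul_one, ← hε]
    have h2 : ‖‖d‖ / 2 - 1‖ ≤ ε ^ 2 / 2 := by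
      rw [Real.norm_eq_abs, abs_le]
      constructor <;> nlinarith
    have h3 : ‖cos s‖ ≤ 1 := by
      rw [Real.norm_eq_abs]
      exact abs_cos_le_one s
    have h4 : ‖cos s‖ * ‖‖d‖ / 2 - 1‖ ≤ 1 * (ε ^ 2 / 2) :=
      mul_le_mul h3 h2 (norm_nonneg _) zero_le_one
    have h5 : ‖(1 / 2 : ℝ)‖ = 1 / 2 := by norm_num
    rw [h5]
    nlinarith
  have hγp : ∀ s, ‖γ s - p s‖ ≤ 2 * ε := by
    intro s
    have hpos := hppos s
    have h1 : γ s - p s = (‖p s‖⁻¹ - 1) • p s := by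
      simp only [γ]
      module
    rw [h1, norm_smul, Real.norm_eq_abs]
    have h2 : |‖p s‖⁻¹ - 1| * ‖p s‖ = |1 - ‖p s‖| := by
      rw [← abs_of_pos hpos, ← abs_mul, abs_of_pos hpos]
      congr 1
      field_simp
    rw [h2]
    have h3 := hpn s
    have h4 := abs_le.1 (hσ s)
    have h5 : 0 ≤ ε ^ 2 / 4 * sin s ^ 2 := by positivity
    have h6 : ε ^ 2 / 4 * sin s ^ 2 ≤ ε / 2 := by
      have h7 : sin s ^ 2 ≤ 1 := Real.sin_sq_le_one s
      nlinarith [sq_nonneg ε]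
    rw [abs_le]
    constructor <;> nlinarith
  have hcubc : ∀ s, |cub (γ s) - cub (c s)| ≤ 9 * ε := by
    intro s
    refine (cub_sub_le (R := 1) (hγn s).le (hcn s).le).trans ?_
    have h1 : γ s - c s = (γ s - p s) + (p s - c s) := by abel
    have h2 : ‖γ s - c s‖ ≤ 3 * ε := by
      rw [h1]
      refine (norm_add_le _ _).trans ?_
      have := hγp s
      have := hpc s
      linarith
    linarith
  -- the pointwise bound
  have hpt : ∀ s ∈ Icc (0 : ℝ) π, rho t (γ s) * ‖deriv γ s‖ ≤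
      (1 + ε ^ 2 + t * (10 * ε)) + (-(⟪e, m⟫ / 2)) * sin s + t * cub (c s) := by
    intro s _
    obtain ⟨h1, h2⟩ := rho_bounds ht (hγn s)
    have hr0 : 0 < rho t (γ s) := by linarith
    obtain ⟨σ, hσ'⟩ : ∃ σ, σ = sin s * ⟪e, m⟫ := ⟨_, rfl⟩
    have hσ1 : |σ| ≤ ε := by rw [hσ']; exact hσ s
    have hσ2 := abs_le.1 hσ1
    have hg0 : 0 < 1 - σ / 2 + σ ^ 2 := by nlinarith
    have hg : ‖p s‖⁻¹ ≤ 1 - σ / 2 + σ ^ 2 := by
      rw [inv_le_comm₀ (hppos s) hg0]
      refine le_of_sq_le_sq ?_ (norm_nonneg _)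
      refine le_trans ?_ (hp1 s)
      rw [← hσ']
      rw [inv_pow, inv_le_iff_one_le_mul₀ (by positivity)]
      have h3 : (1 + σ) * (1 - σ / 2 + σ ^ 2) ^ 2 =
          1 + 5 / 4 * σ ^ 2 + 5 / 4 * σ ^ 3 + σ ^ 5 := by ring
      rw [h3]
      have h4 : 0 ≤ σ ^ 2 := sq_nonneg _
      have h5 : 0 ≤ 5 / 4 + 5 / 4 * σ + σ ^ 3 := by
        have h6 : |σ ^ 3| ≤ 1 / 64 := by
          rw [abs_pow]
          calc |σ| ^ 3 ≤ (1 / 4) ^ 3 := pow_le_pow_left₀ (abs_nonneg _) (hσ1.trans he) 3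
            _ = 1 / 64 := by norm_num
        have := (abs_le.1 h6).1
        linarith
      nlinarith
    have hstep1 : rho t (γ s) * ‖deriv γ s‖ ≤ rho t (γ s) * (1 - σ / 2 + σ ^ 2) :=
      mul_le_mul_of_nonneg_left ((hγd s).trans hg) hr0.le
    refine hstep1.trans ?_
    have hcg : |cub (γ s)| ≤ 1 := by
      have := abs_cub (γ s)
      rwa [hγn, one_pow] at this
    have hcc := hcubc s
    have hg1 : |-(σ / 2) + σ ^ 2| ≤ ε := by
      rw [abs_le]
      constructor <;> nlinarith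
    have hkey : cub (γ s) * (1 - σ / 2 + σ ^ 2) ≤ cub (c s) + 10 * ε := by
      have h3 : cub (γ s) * (1 - σ / 2 + σ ^ 2) =
          cub (c s) + (cub (γ s) - cub (c s)) + cub (γ s) * (-(σ / 2) + σ ^ 2) := by ring
      rw [h3]
      have h4 : cub (γ s) * (-(σ / 2) + σ ^ 2) ≤ 1 * ε := by
        refine (le_abs_self _).trans ?_
        rw [abs_mul]
        exact mul_le_mul hcg hg1 (abs_nonneg _) zero_le_one
      have h5 := (abs_le.1 hcc).2
      linarith
    have h6 : rho t (γ s) * (1 - σ / 2 + σ ^ 2) =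
        (1 - σ / 2 + σ ^ 2) + t * (cub (γ s) * (1 - σ / 2 + σ ^ 2)) := by
      unfold rho
      ring
    rw [h6]
    have h7 : t * (cub (γ s) * (1 - σ / 2 + σ ^ 2)) ≤ t * (cub (c s) + 10 * ε) :=
      mul_le_mul_of_nonneg_left hkey ht.le
    have h8 : σ ^ 2 ≤ ε ^ 2 := by
      rw [← sq_abs]
      exact pow_le_pow_left₀ (abs_nonneg _) hσ1 2
    have h9 : -(⟪e, m⟫ / 2) * sin s = -(σ / 2) := by
      rw [hσ']
      ring
    rw [h9]
    nlinarith
  have hcubcont : Continuous fun s => cub (c s) := by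
    refine continuous_cub.comp ?_
    simp only [c]
    fun_prop
  have i1 : IntervalIntegrable (fun _ : ℝ => 1 + ε ^ 2 + t * (10 * ε)) volume 0 π :=
    intervalIntegrable_const
  have i2 : IntervalIntegrable (fun s => (-(⟪e, m⟫ / 2)) * sin s) volume 0 π :=
    (continuous_const.mul Real.continuous_sin).intervalIntegrable _ _
  have i3 : IntervalIntegrable (fun s => t * cub (c s)) volume 0 π :=
    (continuous_const.mul hcubcont).intervalIntegrable _ _
  have i0 : IntervalIntegrable (fun s => rho t (γ s) * ‖deriv γ s‖) volume 0 π := by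
    refine Continuous.intervalIntegrable ?_ _ _
    have h1 : Continuous (deriv γ) :=
      continuous_iff_continuousAt.2 fun θ => (hasDerivAt_gamma' hγsm θ).continuousAt
    exact ((contDiff_rho (n := 0) t).continuous.comp hγsm.continuous).mul h1.norm
  have hmono := intervalIntegral.integral_mono_on Real.pi_pos.le i0 ((i1.add i2).add i3) hpt
  rw [intervalIntegral.integral_add (i1.add i2) i3, intervalIntegral.integral_add i1 i2,
    intervalIntegral.integral_const, intervalIntegral.integral_const_mul, integral_sin,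
    intervalIntegral.integral_const_mul, integral_half, Real.cos_zero, Real.cos_pi] at hmono
  refine ⟨γ, π, Real.pi_pos.le, hγsm, hγn, ?_, ?_, ?_⟩
  · have h1 : p 0 = x := by
      simp only [p, Real.cos_zero, Real.sin_zero, he', hd']
      module
    simp only [γ]
    rw [h1, hx, inv_one, one_smul]
  · have h1 : p π = y := by
      simp only [p, Real.cos_pi, Real.sin_pi, he', hd']
      module
    simp only [γ]
    rw [h1, hy, inv_one, one_smul]
  · refine hmono.trans ?_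
    have hpi2 : π < 3.15 := Real.pi_lt_d2
    have hpi3 := Real.pi_pos
    simp only [smul_eq_mul, sub_zero]
    have h1 : π * (t * (10 * ε)) ≤ t * (50 * ε) := by
      have : 0 ≤ t * ε := by positivity
      nlinarith
    nlinarith

end Pool.Agent.K7.H35.Z
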