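import Pool.Agent.K7.H35.Z.Nondeg

/-!
# Uniform nondegeneracy
-/

set_option autoImplicit false

open Real Set MeasureTheory Filter
open scoped RealInnerProductSpace Topology

namespace Pool.Agent.K7.H35.Z

variable {N : ℕ}

/-- the integral of the cubic form over a half circle -/
noncomputable def HF (u m : E N) : ℝ := 2 * ∑ i, u i ^ 2 * m i + 4 / 3 * cub m

theorem continuous_cub : Continuous (cub : E N → ℝ) := (contDiff_cub (n := 0)).continuous

theorem continuous_HF : Continuous fun p : E N × E N => HF p.1 p.2 := by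
  unfold HF
  refine Continuous.add ?_ ?_
  · refine continuous_const.mul (continuous_finsetSum _ fun i _ => ?_)
    exact (((EuclideanSpace.proj i : E N →L[ℝ] ℝ).continuous.comp continuous_fst).pow 2).mul
      ((EuclideanSpace.proj i : E N →L[ℝ] ℝ).continuous.comp continuous_snd)
  · exact continuous_const.mul (continuous_cub.comp continuous_snd)

theorem HF_neg (u m : E N) : HF u (-m) = -HF u m := by
  unfold HF
  rw [cub_neg]
  simp only [PiLp.neg_apply, mul_neg, Finset.sum_neg_distrib]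
  ring

theorem HF_smul_cub (a : ℝ) (m : E N) : cub (a • m) = a ^ 3 * cub m := by
  unfold cub
  rw [Finset.mul_sum]
  refine Finset.sum_congr rfl fun i _ => ?_
  simp only [PiLp.smul_apply, smul_eq_mul]
  ring

theorem exists_neg (hN : 4 ≤ N) {x : E N} (hx : ‖x‖ = 1) (z : E N) :
    ∃ m : E N, ‖m‖ = 1 ∧ ⟪x, m⟫ = 0 ∧ HF x m - ⟪z, m⟫ < 0 := by
  by_contra hcon
  push Not at hcon
  have h0 : ∀ m : E N, ‖m‖ = 1 → ⟪x, m⟫ = 0 → HF x m - ⟪z, m⟫ = 0 := by
    intro m hm hxm
    have h1 := hcon m hm hxm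
    have h2 := hcon (-m) (by rw [norm_neg, hm]) (by rw [inner_neg_right, hxm, neg_zero])
    rw [HF_neg, inner_neg_right] at h2
    linarith
  refine nondeg_aux hN (x := fun i => x i) (l := fun i => 3 / 4 * (z i - 2 * x i ^ 2)) ?_ ?_
  · intro h
    have : x = 0 := by
      ext i
      exact congrFun h i
    rw [this, norm_zero] at hx
    exact zero_ne_one hx
  · intro m hm
    let M : E N := WithLp.toLp 2 m
    have hxM : ⟪x, M⟫ = 0 := by
      rw [inner_eq]
      exact hm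
    have hM2 : ∑ i, m i ^ 2 = ‖M‖ ^ 2 := by
      rw [norm_sq]
    have hM3 : ∑ i, m i ^ 3 = cub M := rfl
    rw [hM2, hM3]
    have hl : ∑ i, 3 / 4 * (z i - 2 * x i ^ 2) * m i =
        3 / 4 * (⟪z, M⟫ - 2 * ∑ i, x i ^ 2 * M i) := by
      rw [inner_eq, Finset.mul_sum, ← Finset.sum_sub_distrib, Finset.mul_sum]
      refine Finset.sum_congr rfl fun i _ => ?_
      simp only [M]
      ring
    rw [hl]
    by_cases hM0 : M = 0
    · rw [hM0]
      simp [cub]
    · have hMn : 0 < ‖M‖ := norm_pos_iff.2 hM0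
      have h1 := h0 (‖M‖⁻¹ • M) (by
        rw [norm_smul, norm_inv, norm_norm]
        field_simp) (by rw [inner_smul_right, hxM, mul_zero])
      unfold HF at h1
      rw [HF_smul_cub, inner_smul_right] at h1
      have h2 : ∑ i, x i ^ 2 * (‖M‖⁻¹ • M) i = ‖M‖⁻¹ * ∑ i, x i ^ 2 * M i := by
        rw [Finset.mul_sum]
        refine Finset.sum_congr rfl fun i _ => ?_
        simp only [PiLp.smul_apply, smul_eq_mul]
        ring
      rw [h2] at h1
      field_simp at h1
      linarith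

/-- compactness -/
theorem unif (hN : 4 ≤ N) (K : ℝ) : ∃ δ : ℝ, 0 < δ ∧ ∀ x z : E N, ‖x‖ = 1 → ‖z‖ ≤ K →
    ∃ m : E N, ‖m‖ = 1 ∧ ⟪x, m⟫ = 0 ∧ HF x m - ⟪z, m⟫ ≤ -δ := by
  have hcomp : IsCompact ((Metric.sphere (0 : E N) 1) ×ˢ (Metric.closedBall (0 : E N) K)) :=
    (isCompact_sphere _ _).prod (isCompact_closedBall _ _)
  have key : ∃ δ : ℝ, 0 < δ ∧ ∀ p ∈ (Metric.sphere (0 : E N) 1) ×ˢ (Metric.closedBall (0 : E N) K),
      ∃ m : E N, ‖m‖ = 1 ∧ ⟪p.1, m⟫ = 0 ∧ HF p.1 m - ⟪p.2, m⟫ ≤ -δ := by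
    refine hcomp.induction_on (p := fun s => ∃ δ : ℝ, 0 < δ ∧ ∀ p ∈ s,
      ∃ m : E N, ‖m‖ = 1 ∧ ⟪p.1, m⟫ = 0 ∧ HF p.1 m - ⟪p.2, m⟫ ≤ -δ) ?_ ?_ ?_ ?_
    · exact ⟨1, one_pos, fun p hp => absurd hp (Set.notMem_empty _)⟩
    · rintro s t hst ⟨δ, hδ, h⟩
      exact ⟨δ, hδ, fun p hp => h p (hst hp)⟩
    · rintro s t ⟨δ, hδ, h⟩ ⟨δ', hδ', h'⟩
      refine ⟨min δ δ', lt_min hδ hδ', fun p hp => ?_⟩
      rcases hp with hp | hp
      · obtain ⟨m, h1, h2, h3⟩ := h p hp
        exact ⟨m, h1, h2, h3.trans (neg_le_neg (min_le_left _ _))⟩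
      · obtain ⟨m, h1, h2, h3⟩ := h' p hp
        exact ⟨m, h1, h2, h3.trans (neg_le_neg (min_le_right _ _))⟩
    · rintro ⟨x, z⟩ ⟨hx, hz⟩
      have hx1 : ‖x‖ = 1 := by simpa using hx
      obtain ⟨m, hm, hxm, hneg⟩ := exists_neg hN hx1 z
      let n : E N × E N → E N := fun p => m - ⟪p.1, m⟫ • p.1
      have hn : Continuous n := by
        simp only [n]
        fun_prop
      have hn0 : n (x, z) = m := by simp [n, hxm]
      have hnn : ContinuousAt (fun p => ‖n p‖⁻¹ • n p) (x, z) := by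
        refine ContinuousAt.smul (ContinuousAt.inv₀ hn.norm.continuousAt ?_) hn.continuousAt
        rw [hn0, hm]
        exact one_ne_zero
      have hf : ContinuousAt (fun p : E N × E N => HF p.1 (‖n p‖⁻¹ • n p) -
          ⟪p.2, ‖n p‖⁻¹ • n p⟫) (x, z) := by
        refine ContinuousAt.sub ?_ ?_
        · exact ContinuousAt.comp (g := fun q : E N × E N => HF q.1 q.2)
            (f := fun p : E N × E N => (p.1, ‖n p‖⁻¹ • n p)) continuous_HF.continuousAt
            (continuousAt_fst.prodMk hnn)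
        · exact continuousAt_snd.inner hnn
      have hval : (fun p : E N × E N => HF p.1 (‖n p‖⁻¹ • n p) -
          ⟪p.2, ‖n p‖⁻¹ • n p⟫) (x, z) = HF x m - ⟪z, m⟫ := by
        simp only [hn0, hm, inv_one, one_smul]
      set d := HF x m - ⟪z, m⟫ with hd
      have hlt : (fun p : E N × E N => HF p.1 (‖n p‖⁻¹ • n p) -
          ⟪p.2, ‖n p‖⁻¹ • n p⟫) (x, z) < d / 2 := by
        rw [hval]
        linarith
      have hev := hf.eventually (gt_mem_nhds hlt)
      have hev2 : ∀ᶠ p in 𝓝 (x, z), n p ≠ 0 := by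
        refine hn.continuousAt.eventually_ne ?_
        rw [hn0]
        intro h
        rw [h, norm_zero] at hm
        exact zero_ne_one hm
      refine ⟨{p | n p ≠ 0 ∧ HF p.1 (‖n p‖⁻¹ • n p) - ⟪p.2, ‖n p‖⁻¹ • n p⟫ < d / 2 ∧ ‖p.1‖ = 1},
        ?_, -d / 2, by linarith, ?_⟩
      · have hself := self_mem_nhdsWithin
          (s := (Metric.sphere (0 : E N) 1) ×ˢ (Metric.closedBall (0 : E N) K)) (a := (x, z))
        filter_upwards [mem_nhdsWithin_of_mem_nhds hev, mem_nhdsWithin_of_mem_nhds hev2, hself]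
          with p h1 h2 h3
        refine ⟨h2, h1, ?_⟩
        simpa using h3.1
      · rintro p ⟨h1, h2, h3⟩
        refine ⟨‖n p‖⁻¹ • n p, ?_, ?_, by linarith⟩
        · have : 0 < ‖n p‖ := norm_pos_iff.2 h1
          rw [norm_smul, norm_inv, norm_norm]
          field_simp
        · have : ⟪p.1, n p⟫ = 0 := by
            simp only [n]
            rw [inner_sub_right, inner_smul_right, real_inner_self_eq_norm_sq, h3]
            ring
          rw [inner_smul_right, this, mul_zero]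
  obtain ⟨δ, hδ, h⟩ := key
  exact ⟨δ, hδ, fun x z hx hz => h (x, z) ⟨by simpa using hx, by simpa using hz⟩⟩

end Pool.Agent.K7.H35.Z
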